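import Pool.Agent.EGF.StmtsR

/-! Squad EGF (MP_1090a0_co), row CL7 (helper75): everything after the flat set, `p = 7`. -/

set_option autoImplicit false

open Finset Filter

namespace Pool.Agent.EGF.H75

open Pool.Agent.EGF

theorem log16c : Real.log 16 ≤ 3 := by
  have h : (16 : ℝ) = 2 ^ 4 := by norm_num
  rw [h, Real.log_pow]
  have := Real.log_two_lt_d9
  push_cast
  linarith

/-- `a + b log (k + 1) ≤ c √k` for large `k` (proof of helper68) -/
theorem ev_log7 {a b c : ℝ} (ha : 0 ≤ a) (hb : 0 ≤ b) (hc : 0 < c) :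
    ∀ᶠ k : ℕ in atTop, a + b * Real.log ((k : ℝ) + 1) ≤ c * √(k : ℝ) := by
  have ht : Tendsto (fun k : ℕ => √(√((k : ℝ) + 1))) atTop atTop := by
    refine Real.tendsto_sqrt_atTop.comp (Real.tendsto_sqrt_atTop.comp ?_)
    exact tendsto_atTop_add_const_right _ _ tendsto_natCast_atTop_atTop
  filter_upwards [ht.eventually_ge_atTop 1, ht.eventually_ge_atTop ((a + 4 * b + c) / c)]
    with k h1 h2
  set u : ℝ := √(√((k : ℝ) + 1)) with hu
  have hk0 : (0 : ℝ) ≤ k := Nat.cast_nonneg k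
  have hu2 : u ^ 2 = √((k : ℝ) + 1) := Real.sq_sqrt (Real.sqrt_nonneg _)
  have hu4 : u ^ 4 = (k : ℝ) + 1 := by
    have : u ^ 4 = (u ^ 2) ^ 2 := by ring
    rw [this, hu2, Real.sq_sqrt (by linarith)]
  have hlog : Real.log ((k : ℝ) + 1) ≤ 4 * u := by
    rw [← hu4, Real.log_pow]
    have := Real.log_le_sub_one_of_pos (show (0 : ℝ) < u by linarith)
    push_cast
    linarith
  have hsq : u ^ 2 - 1 ≤ √(k : ℝ) := by
    rw [hu2]
    have h3 : √((k : ℝ) + 1) ≤ √(k : ℝ) + 1 := by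
      rw [Real.sqrt_le_left (by positivity)]
      nlinarith [Real.sq_sqrt hk0, Real.sqrt_nonneg (k : ℝ)]
    linarith
  have h5 : a + 4 * b + c ≤ c * u := by
    rw [div_le_iff₀ hc] at h2
    linarith
  have h6 : (a + 4 * b + c) * u ≤ c * u * u := mul_le_mul_of_nonneg_right h5 (by linarith)
  have h7 : b * Real.log ((k : ℝ) + 1) ≤ b * (4 * u) := mul_le_mul_of_nonneg_left hlog hb
  have h8 : c * (u ^ 2 - 1) ≤ c * √(k : ℝ) := mul_le_mul_of_nonneg_left hsq hc.le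
  have h9 : a ≤ a * u := le_mul_of_one_le_right ha h1
  have h10 : c ≤ c * u := le_mul_of_one_le_right hc.le h1
  nlinarith

/-- the number of bad pairs is the sum over the chain -/
theorem bp_card {V : Type} [DecidableEq V] {k : ℕ} (c : V → V → Fin k) (C : Finset (Fin k))
    (y : ℕ → V) (A : Finset V) (m : ℕ) (l1 : ℝ)
    (h : ∀ l < m, ((A.filter fun x => c x (y l) ∉ C).card : ℝ) ≤ l1 * A.card) :
    ((Bp c C y A (range m)).card : ℝ) ≤ l1 * (A.card * m) := by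
  have e1 : (Bp c C y A (range m)).card =
      ∑ l ∈ range m, (A.filter fun x => c x (y l) ∉ C).card := by
    unfold Bp
    rw [Finset.card_filter, Finset.sum_product_right]
    apply Finset.sum_congr rfl
    intro l _
    rw [Finset.card_filter]
  rw [e1]
  push_cast
  calc ∑ l ∈ range m, ((A.filter fun x => c x (y l) ∉ C).card : ℝ)
      ≤ ∑ _l ∈ range m, l1 * (A.card : ℝ) := by
        apply Finset.sum_le_sum
        intro l hl
        exact h l (Finset.mem_range.1 hl)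
    _ = l1 * (A.card * m) := by
        rw [Finset.sum_const, Finset.card_range, nsmul_eq_mul]
        ring

/-- from `HRG` to `Rg7` -/
theorem rg7_of {V : Type} [DecidableEq V] {k : ℕ} (c : V → V → Fin k) (U : Finset V)
    (C : Finset (Fin k)) (e : Fin k) (y : ℕ → V) (b : ℕ → Fin k) (A A2 : Finset V)
    (M L2 : Finset ℕ) (ρ ω l1 lam : ℝ) (hA : A2 ⊆ A) (hL : L2 ⊆ M) (hl : l1 ≤ lam)
    (h : ∀ A' ⊆ A2, ∀ B' ⊆ L2, ρ * A2.card ≤ (A'.card : ℝ) → ρ * L2.card ≤ (B'.card : ℝ) →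
      ω * (A'.card * B'.card) ≤ (((A' ×ˢ B') ∩ Gd c U e y b A M).card : ℝ) ∧
      (((A' ×ˢ B') ∩ Bp c C y A M).card : ℝ) ≤ l1 * (A'.card * B'.card)) :
    Rg7 c U C e y b A2 L2 ρ ω lam := by
  intro A' hA' L' hL' h1 h2
  obtain ⟨h3, h4⟩ := h A' hA' L' hL' h1 h2
  constructor
  · refine h3.trans ?_
    have : ((A' ×ˢ L') ∩ Gd c U e y b A M).card ≤ (Gd c U e y b A' L').card := by
      apply Finset.card_le_card
      intro p hp
      rw [Finset.mem_inter] at hp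
      unfold Gd at hp ⊢
      rw [Finset.mem_filter] at hp ⊢
      exact ⟨hp.1, hp.2.2⟩
    exact_mod_cast this
  · have : (Bp c C y A' L').card ≤ ((A' ×ˢ L') ∩ Bp c C y A M).card := by
      apply Finset.card_le_card
      intro p hp
      rw [Finset.mem_inter]
      unfold Bp at hp ⊢
      rw [Finset.mem_filter] at hp ⊢
      refine ⟨hp.1, ?_, hp.2⟩
      rw [Finset.mem_product] at hp ⊢
      exact ⟨hA (hA' hp.1.1), hL (hL' hp.1.2)⟩
    have h5 : ((Bp c C y A' L').card : ℝ) ≤ (((A' ×ˢ L') ∩ Bp c C y A M).card : ℝ) := by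
      exact_mod_cast this
    exact h5.trans (h4.trans (mul_le_mul_of_nonneg_right hl (by positivity)))

theorem cl7 (hRc2 : Rc2Stmt) (hPaa : PaaStmt) (hPbb : PbbStmt) (hChn : ChnStmt)
    (hPdd : PddStmt) (hHrg : HrgStmt) (hIt7 : It7Stmt) : Cl7Stmt := by
  intro θ L hθ hθ1 hL
  -- s0
  obtain ⟨s0, hs0def⟩ : ∃ s0 : ℕ, s0 = ⌈4000 * L⌉₊ + 33 := ⟨_, rfl⟩
  have hs0L : 4000 * L + 33 ≤ (s0 : ℝ) := by
    rw [hs0def]
    push_cast
    linarith [Nat.le_ceil (4000 * L)]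
  have hs0pos : (0 : ℝ) < s0 := by linarith
  have hs0one : (1 : ℝ) ≤ s0 := by linarith
  have hlog0 : 1 ≤ Real.log s0 := by
    have h1 : Real.exp 1 ≤ s0 := by linarith [Real.exp_one_lt_d9]
    exact (Real.le_log_iff_exp_le hs0pos).2 h1
  have hlp : 0 < Real.log s0 := by linarith only [hlog0]
  have hs02 : 2 ≤ s0 := by omega
  obtain ⟨R, hR⟩ : ∃ R : ℝ, R = 2 / θ := ⟨_, rfl⟩
  have hR0 : 0 < R := by rw [hR]; positivity
  obtain ⟨κ, hκ⟩ : ∃ κ : ℝ, κ = (θ / 4 / 12) ^ 2 := ⟨_, rfl⟩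
  have hκ0 : 0 < κ := by rw [hκ]; positivity
  have hκ8 : κ ≤ 1 / 8 := by
    rw [hκ]
    nlinarith only [hθ, hθ1]
  have hκθ : 12 * √κ ≤ θ / 4 := by
    rw [hκ, Real.sqrt_sq (by positivity)]
    linarith only [hθ]
  obtain ⟨q, hq⟩ : ∃ q : ℝ, q = 1 / (8 * (s0 : ℝ) ^ 2) := ⟨_, rfl⟩
  have hq0 : 0 < q := by rw [hq]; positivity
  have hq1 : q ≤ 1 := by
    rw [hq, div_le_one (by positivity)]
    nlinarith only [hs0one]
  obtain ⟨ω, hω⟩ : ∃ ω : ℝ, ω = κ ^ 2 * q / 8 := ⟨_, rfl⟩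
  have hω0 : 0 < ω := by rw [hω]; positivity
  have hω1 : ω ≤ 1 := by
    rw [hω]
    have h1 : κ ^ 2 ≤ 1 := pow_le_one₀ hκ0.le (by linarith only [hκ8])
    have h2 : κ ^ 2 * q ≤ 1 := mul_le_one₀ h1 hq0.le hq1
    linarith only [h2]
  obtain ⟨lam, hlam, hlam1, hIt⟩ := hIt7 (θ / 4) (ω / 2) s0 (by positivity)
    (by linarith only [hθ1]) (by positivity) (by linarith only [hω1]) hs02
  obtain ⟨s1, hs1def⟩ : ∃ s1 : ℕ, s1 = ⌈20480 * s0 ^ 2 * L / (ω * lam)⌉₊ + 2 := ⟨_, rfl⟩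
  have hs1L : 20480 * s0 ^ 2 * L / (ω * lam) + 2 ≤ (s1 : ℝ) := by
    rw [hs1def]
    push_cast
    linarith only [Nat.le_ceil (20480 * s0 ^ 2 * L / (ω * lam))]
  have hs1pos : (0 : ℝ) < s1 := by
    have h : 0 ≤ 20480 * s0 ^ 2 * L / (ω * lam) := by positivity
    linarith only [h, hs1L]
  have hs12 : 2 ≤ s1 := by omega
  obtain ⟨l1, hl1⟩ : ∃ l1 : ℝ, l1 = 5120 * (s0 : ℝ) ^ 2 * L / s1 := ⟨_, rfl⟩
  have hl10 : 0 < l1 := by rw [hl1]; positivity
  have hl1lam : 4 * l1 / ω ≤ lam := by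
    have h1 : 20480 * s0 ^ 2 * L / (ω * lam) ≤ s1 := by linarith only [hs1L]
    rw [div_le_iff₀ (by positivity)] at h1
    rw [div_le_iff₀ hω0, hl1, ← mul_div_assoc, div_le_iff₀ hs1pos]
    linarith only [h1]
  obtain ⟨δm, hδm⟩ : ∃ δm : ℝ, δm = 1 / (16 * Real.log s0) := ⟨_, rfl⟩
  have hδm0 : 0 < δm := by rw [hδm]; positivity
  have hδm1 : δm ≤ 1 := by
    rw [hδm, div_le_one (by positivity)]
    linarith only [hlog0]
  obtain ⟨δ, hδ⟩ : ∃ δ : ℝ, δ = Real.exp (-(16 / ω)) * δm := ⟨_, rfl⟩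
  have hδ0 : 0 < δ := by rw [hδ]; positivity
  have hex1 : Real.exp (-(16 / ω)) ≤ 1 := by
    apply Real.exp_le_one_iff.2
    have h : 0 ≤ 16 / ω := by positivity
    linarith only [h]
  have hδ1 : δ ≤ 1 := by
    rw [hδ]
    exact mul_le_one₀ hex1 hδm0.le hδm1
  obtain ⟨ρ, ν, N0, hρ, hρ1, hν, hν1, hN01, hIt⟩ := hIt δ (2 * s1 ^ 2) hδ0 hδ1
  obtain ⟨ρ0, hρ0d⟩ : ∃ ρ0 : ℝ, ρ0 = min (min (1 / 4) (κ / 2)) (min ((1 / (40 * R)) ^ 2)
      (δm / (8 * R))) := ⟨_, rfl⟩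
  have hρ0 : 0 < ρ0 := by
    rw [hρ0d]
    exact lt_min (lt_min (by norm_num) (by positivity)) (lt_min (by positivity) (by positivity))
  have hρa : ρ0 ≤ 1 / 4 := by
    rw [hρ0d]
    exact (min_le_left _ _).trans (min_le_left _ _)
  have hρb : ρ0 ≤ κ / 2 := by
    rw [hρ0d]
    exact (min_le_left _ _).trans (min_le_right _ _)
  have hρc : √ρ0 ≤ 1 / (40 * R) := by
    apply Real.sqrt_le_iff.2
    refine ⟨by positivity, ?_⟩
    rw [hρ0d]
    exact (min_le_right _ _).trans (min_le_left _ _)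
  have hρd : ρ0 ≤ δm / (8 * R) := by
    rw [hρ0d]
    exact (min_le_right _ _).trans (min_le_right _ _)
  have hρc' : 5 * √ρ0 * R ≤ 1 / 8 := by
    have h := mul_le_mul_of_nonneg_right hρc hR0.le
    have e : 1 / (40 * R) * R = 1 / 40 := by field_simp
    rw [e] at h
    linarith only [h]
  have hρd' : 8 * ρ0 * R ≤ δm := by
    rw [le_div_iff₀ (by positivity)] at hρd
    linarith only [hρd]
  -- large k
  obtain ⟨E0, hE0⟩ : ∃ E0 : ℝ, E0 = 64 * (s0 : ℝ) ^ 2 / ρ0 ^ 2 := ⟨_, rfl⟩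
  have hE00 : 0 ≤ E0 := by rw [hE0]; positivity
  have hb0 : (0 : ℝ) ≤ ((s0 ^ 2 + s1 ^ 2 : ℕ) : ℝ) := Nat.cast_nonneg _
  have hbig1 := ev_log7 (a := 3 + E0 + 16 / (ω * ρ ^ 2))
    (b := ((s0 ^ 2 + s1 ^ 2 : ℕ) : ℝ)) (c := ν / 2) (by positivity) hb0 (by positivity)
  have hbig2 := ev_log7 (a := 0) (b := 1) (c := ν / 2) le_rfl zero_le_one (by positivity)
  have hbig3 := ev_log7 (a := N0) (b := 0) (c := 1 / 2) (by linarith only [hN01]) le_rfl
    (by positivity)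
  have hbig4 := ev_log7 (a := 6) (b := 0) (c := 1 / 2) (by norm_num) le_rfl (by positivity)
  have hbig5 := ev_log7 (a := 8 + E0) (b := ((s0 ^ 2 + s1 ^ 2 : ℕ) : ℝ)) (c := 3 / 16)
    (by positivity) hb0 (by positivity)
  have hbig6 := ev_log7 (a := 4 + E0) (b := ((s0 ^ 2 + s1 ^ 2 : ℕ) : ℝ))
    (c := θ / 4 * δm / 8) (by positivity) hb0 (by positivity)
  have hbig7 := ev_log7 (a := 16 * Real.log s0) (b := 0) (c := 1 / 2) (by positivity) le_rfl
    (by positivity)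
  obtain ⟨k₀, hk₀⟩ := eventually_atTop.1 (hbig1.and (hbig2.and (hbig3.and (hbig4.and
    (hbig5.and (hbig6.and hbig7))))))
  refine ⟨s0, s1, by omega, by omega, k₀, ?_⟩
  intro k hk V _ c W hsym hNo3 h7 hFl0 hFl1 hpal hsqrt hWn
  obtain ⟨hb1, hb2, hb3, hb4, hb5, hb6, hb7⟩ := hk₀ k hk
  obtain ⟨U, hUW, hRec, hWU, hpalU⟩ := hRc2 V k c W θ hθ hWn hpal
  obtain ⟨N, hN⟩ : ∃ N : ℝ, Real.log U.card = N := ⟨_, rfl⟩
  rw [hN] at hWU hpalU
  rw [← hR] at hpalU
  have hNk : √(k : ℝ) / 2 ≤ N := by linarith only [hWU, hsqrt]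
  have hN6 : 6 ≤ N := by linarith only [hb4, hNk]
  have hN0' : 0 ≤ N := by linarith only [hN6]
  have hNN0 : N0 ≤ N := by linarith only [hb3, hNk]
  have hN16 : 16 * Real.log s0 ≤ N := by linarith only [hb7, hNk]
  obtain ⟨K, hK⟩ : ∃ K : ℝ, K = Real.log ((k : ℝ) + 1) := ⟨_, rfl⟩
  rw [← hK] at hb1 hb2 hb5 hb6
  have hνk : ν / 2 * √(k : ℝ) ≤ ν * N := by
    have := mul_le_mul_of_nonneg_left hNk hν.le
    linarith only [this]
  have hlogk1 : K ≤ ν * N := by linarith only [hb2, hνk]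
  have hlogk : Real.log (k : ℝ) ≤ ν * N := by
    rcases Nat.eq_zero_or_pos k with h0 | h0
    · rw [h0, Nat.cast_zero, Real.log_zero]
      exact mul_nonneg hν.le hN0'
    · have h1 : Real.log (k : ℝ) ≤ K := by
        rw [hK]
        exact Real.log_le_log (by exact_mod_cast h0) (by linarith only)
      exact h1.trans hlogk1
  have hU16 : 16 ≤ U.card := by
    by_contra hcon
    have h1 : U.card ≤ 16 := by omega
    have h2 : Real.log U.card ≤ 3 := by
      rcases Nat.eq_zero_or_pos U.card with h0 | h0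
      · rw [h0, Nat.cast_zero, Real.log_zero]
        norm_num
      · have h3 : (U.card : ℝ) ≤ 16 := by exact_mod_cast h1
        exact (Real.log_le_log (by exact_mod_cast h0) h3).trans log16c
    rw [hN] at h2
    linarith only [h2, hN6]
  have hUpos : 0 < U.card := by omega
  have hUpos' : (0 : ℝ) < U.card := by exact_mod_cast hUpos
  have hUe : (U.card : ℝ) = Real.exp N := by rw [← hN, Real.exp_log hUpos']
  -- Flat and No3 for U
  have hFlU0 : Flat c U s0 (L * s0) := fun S hS hc => hFl0 S (hS.trans hUW) hc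
  have hFlU1 : Flat c U s1 (L * s1) := fun S hS hc => hFl1 S (hS.trans hUW) hc
  have hNo3U : No3 c U := fun x hx y hy z hz => hNo3 x (hUW hx) y (hUW hy) z (hUW hz)
  have h32 : 32 * L + 1 ≤ (s0 : ℝ) := by linarith only [hs0L, hL]
  -- PAA
  obtain ⟨A, B, C1, e, hAU, hBU, hdis, hAn, hBn, hC1, hlA, hlB, hRg6⟩ :=
    hPaa V k c U s0 s1 L ρ0 hsym hFlU0 hFlU1 (by linarith only [hL])
      (by linarith only [hs0L, hL]) hs02 hs12 hU16 hρ0 (by linarith only [hρa])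
  rw [hN, ← hE0, ← hK] at hlA hlB
  rw [← hq, ← hl1] at hRg6
  -- PBB
  obtain ⟨B2, hB2, Z0, hZ0, hB2n, hZc, hlB2, hbad, hgood⟩ :=
    hPbb V k c U A B C1 e ρ0 q l1 (κ / 2) hAn hBn hρ0 hρa hρb hq0 hl10.le hRg6
  have hlB2' : N / 2 + 3 ≤ Real.log B2.card := by
    have h1 : 5 * √ρ0 * ((pal c U).card : ℝ) ≤ 1 / 8 * N := by
      calc 5 * √ρ0 * ((pal c U).card : ℝ) ≤ 5 * √ρ0 * (R * N) :=
            mul_le_mul_of_nonneg_left hpalU (by positivity)
        _ = 5 * √ρ0 * R * N := by ring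
        _ ≤ 1 / 8 * N := mul_le_mul_of_nonneg_right hρc' hN0'
    linarith only [h1, hlB2, hlB, hb5, hNk]
  -- chain
  obtain ⟨m, hm⟩ : ∃ m : ℕ, m = ⌊N / (4 * Real.log s0)⌋₊ := ⟨_, rfl⟩
  have hm1 : (m : ℝ) * (4 * Real.log s0) ≤ N := by
    have h1 : (m : ℝ) ≤ N / (4 * Real.log s0) := by
      rw [hm]
      exact Nat.floor_le (by positivity)
    rw [le_div_iff₀ (by positivity)] at h1
    exact h1
  have hm2 : δm * N ≤ m := by
    have h1 : N / (4 * Real.log s0) < m + 1 := by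
      rw [hm]
      exact Nat.lt_floor_add_one _
    have e1 : N / (4 * Real.log s0) = 4 * (δm * N) := by
      rw [hδm]
      field_simp
      norm_num
    have h2 : 1 ≤ δm * N := by
      rw [hδm, div_mul_eq_mul_div, one_mul, le_div_iff₀ (by positivity)]
      linarith only [hN16]
    rw [e1] at h1
    linarith only [h1, h2]
  have hδmN : 1 ≤ δm * N := by
    rw [hδm, div_mul_eq_mul_div, one_mul, le_div_iff₀ (by positivity)]
    linarith only [hN16]
  have hm0 : 0 < m := by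
    have : (0 : ℝ) < m := by linarith only [hδmN, hm2]
    exact_mod_cast this
  have hNo3B : No3 c B2 := fun x hx y hy z hz =>
    hNo3U x (hBU (hB2 hx)) y (hBU (hB2 hy)) z (hBU (hB2 hz))
  have hFlB : Flat c B2 s0 (L * s0) := fun S hS hc => hFlU0 S (hS.trans (hB2.trans hBU)) hc
  obtain ⟨y, b, hyb, hchn⟩ := hChn V k c B2 s0 m L hsym hNo3B hFlB hL h32 (by
    rw [Real.log_pow]
    push_cast
    have e1 : (m : ℝ) * (2 * Real.log s0) = (m : ℝ) * (4 * Real.log s0) / 2 := by ring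
    rw [e1]
    linarith only [hm1, hlB2'])
  have hpalB : ∀ l < m, b l ∈ pal c U := by
    intro l hl
    have h1 := (hyb l hl).2
    unfold pal at h1 ⊢
    rw [Finset.mem_image] at h1 ⊢
    obtain ⟨p, hp, hp2⟩ := h1
    refine ⟨p, ?_, hp2⟩
    rw [Finset.mem_filter, Finset.mem_product] at hp ⊢
    exact ⟨⟨hBU (hB2 hp.1.1), hBU (hB2 hp.1.2)⟩, hp.2⟩
  have hinj : ∀ l < m, ∀ i < m, b l = b i → l = i := fun l hl i hi =>
    hchn.2 l (Finset.mem_range.2 hl) i (Finset.mem_range.2 hi)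
  have hZm : 2 * Z0.card ≤ m := by
    have h1 : (Z0.card : ℝ) ≤ 4 * ρ0 * (R * N) :=
      hZc.trans (mul_le_mul_of_nonneg_left hpalU (by positivity))
    have h2 : 8 * ρ0 * R * N ≤ δm * N := mul_le_mul_of_nonneg_right hρd' hN0'
    have h3 : ((2 * Z0.card : ℕ) : ℝ) ≤ m := by
      push_cast
      linarith only [h1, h2, hm2]
    exact_mod_cast h3
  have hApos : (0 : ℝ) < A.card := by exact_mod_cast Finset.card_pos.2 hAn
  have hAbig : 2 * U.card * Real.exp (-(θ / 4 * m / 4)) ≤ (A.card : ℝ) := by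
    have h1 : 1 + (3 + ((s0 ^ 2 + s1 ^ 2 : ℕ) : ℝ) * K + E0) ≤ θ / 4 * m / 4 := by
      have h2 : θ / 4 * (δm * N) ≤ θ / 4 * m := mul_le_mul_of_nonneg_left hm2 (by positivity)
      have h3 : θ / 4 * δm / 8 * √(k : ℝ) ≤ θ / 4 * (δm * N) / 4 := by
        have h4 := mul_le_mul_of_nonneg_left hNk (by positivity : 0 ≤ θ / 4 * δm / 4)
        linarith only [h4]
      linarith only [h2, h3, hb6]
    have h2e : (2 : ℝ) ≤ Real.exp 1 := by linarith only [Real.exp_one_gt_d9]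
    rw [hUe]
    calc 2 * Real.exp N * Real.exp (-(θ / 4 * m / 4))
        ≤ Real.exp 1 * Real.exp N * Real.exp (-(θ / 4 * m / 4)) := by gcongr
      _ = Real.exp (1 + N + -(θ / 4 * m / 4)) := by rw [Real.exp_add, Real.exp_add]
      _ ≤ Real.exp (Real.log A.card) := by
          apply Real.exp_le_exp.2
          linarith only [h1, hlA]
      _ = A.card := Real.exp_log hApos
  have hpdd := hPdd V k c U A Z0 e y b m (θ / 4) κ q hRec (by positivity) hκ0 hκ8 hκθ hq0 hAU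
    hpalB hinj hZm hAbig (by
      intro l hl hlZ hlA'
      exact hgood (b l) (Finset.mem_sdiff.2 ⟨hpalB l hl, hlZ⟩) hlA' (y l) (hyb l hl).1)
  rw [← hω] at hpdd
  have hbp := bp_card c C1 y A m l1 (fun l hl => hbad (y l) (hyb l hl).1)
  have hrn : (range m).Nonempty := ⟨0, Finset.mem_range.2 hm0⟩
  have hGsub : (A ×ˢ range m) ∩ Gd c U e y b A (range m) = Gd c U e y b A (range m) := by
    apply Finset.inter_eq_right.2
    exact Finset.filter_subset _ _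
  have hHsub : (A ×ˢ range m) ∩ Bp c C1 y A (range m) = Bp c C1 y A (range m) := by
    apply Finset.inter_eq_right.2
    exact Finset.filter_subset _ _
  obtain ⟨A2, hA2, L2, hL2, hA2n, hL2n, hlA2, hlL2, hreg⟩ := hHrg V ℕ A (range m)
    (Gd c U e y b A (range m)) (Bp c C1 y A (range m)) ω l1 ρ hAn hrn hω0 hl10 hρ hρ1
    (by rw [hGsub, Finset.card_range]; exact hpdd)
    (by rw [hHsub, Finset.card_range]; exact hbp)
  have hRg7 : Rg7 c U C1 e y b A2 L2 ρ (ω / 2) lam :=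
    rg7_of c U C1 e y b A A2 (range m) L2 ρ (ω / 2) (4 * l1 / ω) lam hA2 hL2 hl1lam hreg
  have hL2c : δ * N ≤ L2.card := by
    have hmpos : (0 : ℝ) < m := by exact_mod_cast hm0
    have hL2pos : (0 : ℝ) < L2.card := by exact_mod_cast Finset.card_pos.2 hL2n
    rw [Finset.card_range] at hlL2
    have h1 : (m : ℝ) * Real.exp (-(16 / ω)) ≤ L2.card := by
      calc (m : ℝ) * Real.exp (-(16 / ω)) = Real.exp (Real.log m + -(16 / ω)) := by
            rw [Real.exp_add, Real.exp_log hmpos]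
        _ ≤ Real.exp (Real.log L2.card) := by
            apply Real.exp_le_exp.2
            linarith only [hlL2]
        _ = L2.card := Real.exp_log hL2pos
    have h2 : Real.exp (-(16 / ω)) * (δm * N) ≤ Real.exp (-(16 / ω)) * m :=
      mul_le_mul_of_nonneg_left hm2 (Real.exp_pos _).le
    calc δ * N = Real.exp (-(16 / ω)) * (δm * N) := by rw [hδ]; ring
      _ ≤ Real.exp (-(16 / ω)) * m := h2
      _ = m * Real.exp (-(16 / ω)) := by ring
      _ ≤ L2.card := h1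
  have hlA2' : (1 - ν) * N ≤ Real.log A2.card := by
    linarith only [hlA2, hlA, hb1, hνk]
  have hyA : ∀ l ∈ L2, y l ∈ U ∧ y l ∉ A2 := by
    intro l hl
    have h1 := (hyb l (Finset.mem_range.1 (hL2 hl))).1
    refine ⟨hBU (hB2 h1), fun h2 => ?_⟩
    exact Finset.disjoint_left.1 hdis (hA2 h2) (hB2 h1)
  have hchn2 : Chn c y b L2 :=
    ⟨fun l hl i hi hli => hchn.1 l (hL2 hl) i (hL2 hi) hli,
      fun l hl i hi hbi => hchn.2 l (hL2 hl) i (hL2 hi) hbi⟩
  obtain ⟨Q, hQU, hQ7, hQ5⟩ := hIt V k c U A2 L2 C1 e y b L hsym hRec hL h32 hFlU0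
    (hA2.trans hAU) (by rw [hN]; exact hlA2') (by rw [hN]; exact hlogk) (by rw [hN]; exact hNN0)
    (by rw [hN]; exact hL2c) hC1 hyA hchn2 hRg7
  have h8 := h7 Q (hQU.trans hUW) hQ7
  omega

end Pool.Agent.EGF.H75
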