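import Pool.Agent.EGF.Stmts

/-! Row PAL of the squad EGF (helper75): disjoint palettes. -/

set_option autoImplicit false

open Finset

namespace Pool.Agent.EGF.H75

open Pool.Agent.EGF

theorem mem_pal {V : Type} [DecidableEq V] {k : ℕ} (c : V → V → Fin k) (S : Finset V) (e : Fin k) :
    e ∈ pal c S ↔ ∃ x ∈ S, ∃ y ∈ S, x ≠ y ∧ c x y = e := by
  unfold pal
  constructor
  · intro h
    obtain ⟨p, hp, he⟩ := Finset.mem_image.1 h
    obtain ⟨hp1, hp2⟩ := Finset.mem_filter.1 hp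
    obtain ⟨h1, h2⟩ := Finset.mem_product.1 hp1
    exact ⟨p.1, h1, p.2, h2, hp2, he⟩
  · rintro ⟨x, hx, y, hy, hne, he⟩
    exact Finset.mem_image.2 ⟨(x, y), Finset.mem_filter.2 ⟨Finset.mem_product.2 ⟨hx, hy⟩, hne⟩, he⟩

theorem pal_mono {V : Type} [DecidableEq V] {k : ℕ} (c : V → V → Fin k) {S U : Finset V}
    (h : S ⊆ U) : pal c S ⊆ pal c U := by
  intro e he
  obtain ⟨x, hx, y, hy, hne, hc⟩ := (mem_pal c S e).1 he
  exact (mem_pal c U e).2 ⟨x, h hx, y, h hy, hne, hc⟩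

theorem pal : PalStmt := by
  intro V _ k c U θ h4 hR hθ S hS T hT hTn a ha
  have hdis : Disjoint (EGF.pal c S) (EGF.pal c T) := by
    rw [Finset.disjoint_left]
    intro e he he'
    obtain ⟨x, hx, x', hx', hne, hc⟩ := (mem_pal c S e).1 he
    obtain ⟨y, hy, y', hy', hne', hc'⟩ := (mem_pal c T e).1 he'
    have h1 := ha x hx y hy
    have h2 := ha x hx y' hy'
    have h3 := ha x' hx' y hy
    have h5 := ha x' hx' y' hy'
    exact h4 x (hS hx) x' (hS hx') y (hT hy) y' (hT hy') hne hne' h1.1 h2.1 h3.1 h5.1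
      (hc.trans hc'.symm) (h1.2.trans h2.2.symm) (h1.2.trans h3.2.symm) (h1.2.trans h5.2.symm)
  have hcard : (EGF.pal c S).card + (EGF.pal c T).card ≤ (EGF.pal c U).card := by
    rw [← Finset.card_union_of_disjoint hdis]
    exact Finset.card_le_card (Finset.union_subset (pal_mono c hS) (pal_mono c hT))
  have hcardR : ((EGF.pal c S).card : ℝ) + (EGF.pal c T).card ≤ (EGF.pal c U).card := by
    exact_mod_cast hcard
  have hrec := hR.2 T hT hTn
  nlinarith [mul_le_mul_of_nonneg_left hcardR hθ]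

end Pool.Agent.EGF.H75
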