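import Pool.Agent.EGF.StmtsQ

/-!
# Squad EGF, row RN8: one round with constants
-/

set_option autoImplicit false

open Finset

namespace Pool.Agent.EGF.H75

/-- `exp x ≤ 1 / 8` for `x ≤ -3` -/
theorem ex8 {x : ℝ} (h : x ≤ -3) : Real.exp x ≤ 1 / 8 := by
  have h3 : (8 : ℝ) ≤ Real.exp 3 := by
    have e1 : (2 : ℝ) ≤ Real.exp 1 := by
      have := Real.exp_one_gt_d9
      linarith
    have e3 : Real.exp 3 = Real.exp 1 ^ 3 := by
      rw [← Real.exp_nat_mul]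
      norm_num
    rw [e3]
    calc (8 : ℝ) = 2 ^ 3 := by norm_num
      _ ≤ Real.exp 1 ^ 3 := pow_le_pow_left₀ (by norm_num) e1 3
  calc Real.exp x ≤ Real.exp (-3) := Real.exp_le_exp.2 h
    _ = (Real.exp 3)⁻¹ := Real.exp_neg 3
    _ ≤ (8 : ℝ)⁻¹ := inv_anti₀ (by norm_num) h3
    _ = 1 / 8 := by norm_num

/-- `16 ≤ exp 3` -/
theorem ex16 : (16 : ℝ) ≤ Real.exp 3 := by
  have e1 : (2.7 : ℝ) ≤ Real.exp 1 := by
    have := Real.exp_one_gt_d9
    linarith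
  have e3 : Real.exp 3 = Real.exp 1 ^ 3 := by
    rw [← Real.exp_nat_mul]
    norm_num
  rw [e3]
  calc (16 : ℝ) ≤ 2.7 ^ 3 := by norm_num
    _ ≤ Real.exp 1 ^ 3 := pow_le_pow_left₀ (by norm_num) e1 3

/-- the second numerical condition of DRF -/
theorem pw (N ε d r F : ℝ) (τ : ℕ) (hN : 2 ≤ N) (hε : 0 < ε) (hd : 0 < d) (hr : 0 < r)
    (hτ : ε * N ≤ τ) (hF : F ≤ 2 * Real.exp N) :
    8 * Real.exp N ^ 3 * F * 2 ^ τ *
      (Real.exp (-(4 / d * (6 / ε + 1 + Real.log (1 / r))))) ^ (d * τ / 4) ≤ r ^ τ := by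
  have a1 : (Real.exp (-(4 / d * (6 / ε + 1 + Real.log (1 / r))))) ^ (d * τ / 4) =
      Real.exp (-((6 / ε + 1 + Real.log (1 / r)) * τ)) := by
    rw [← Real.exp_mul]
    congr 1
    field_simp
  have a2 : r ^ τ = Real.exp (-(Real.log (1 / r) * τ)) := by
    rw [one_div, Real.log_inv, neg_mul, neg_neg, mul_comm, Real.exp_nat_mul, Real.exp_log hr]
  have a3 : (2 : ℝ) ^ τ ≤ Real.exp τ := by
    have e1 : (2 : ℝ) ≤ Real.exp 1 := by
      have := Real.exp_one_gt_d9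
      linarith
    calc (2 : ℝ) ^ τ ≤ Real.exp 1 ^ τ := pow_le_pow_left₀ (by norm_num) e1 τ
      _ = Real.exp τ := by rw [← Real.exp_nat_mul, mul_one]
  have a4 : N ≤ τ / ε := by
    rw [le_div_iff₀ hε]
    linarith
  have a5 : Real.exp N ^ 3 = Real.exp (3 * N) := by
    rw [← Real.exp_nat_mul]
    norm_num
  rw [a1, a2, a5]
  have h16 := ex16
  calc 8 * Real.exp (3 * N) * F * 2 ^ τ * Real.exp (-((6 / ε + 1 + Real.log (1 / r)) * τ))
      ≤ 8 * Real.exp (3 * N) * (2 * Real.exp N) * Real.exp τ *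
          Real.exp (-((6 / ε + 1 + Real.log (1 / r)) * τ)) := by
        gcongr
    _ = 16 * (Real.exp (3 * N) * Real.exp N * Real.exp τ *
          Real.exp (-((6 / ε + 1 + Real.log (1 / r)) * τ))) := by ring
    _ ≤ Real.exp 3 * (Real.exp (3 * N) * Real.exp N * Real.exp τ *
          Real.exp (-((6 / ε + 1 + Real.log (1 / r)) * τ))) := by
        gcongr
    _ = Real.exp (3 + (3 * N + N + τ + -((6 / ε + 1 + Real.log (1 / r)) * τ))) := by
        rw [Real.exp_add, Real.exp_add, Real.exp_add, Real.exp_add]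
    _ ≤ Real.exp (-(Real.log (1 / r) * τ)) := by
        apply Real.exp_le_exp.2
        have e : (6 / ε + 1 + Real.log (1 / r)) * τ =
            6 * (τ / ε) + τ + Real.log (1 / r) * τ := by
          field_simp
        rw [e]
        nlinarith

/-- the first numerical condition of DRF -/
theorem fs (N ε d ν : ℝ) (τ : ℕ) (hε : 0 < ε) (hd : 0 < d) (hN : 24 / (d * ε) ≤ N)
    (hν : ν ≤ d * ε / 8) (hτ : ε * N ≤ τ) :
    Real.exp (ν * N) * Real.exp (-(d * τ / 4)) ≤ 1 / 8 := by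
  rw [← Real.exp_add]
  apply ex8
  have h1 : 24 ≤ d * ε * N := by
    have := (div_le_iff₀ (by positivity : (0 : ℝ) < d * ε)).1 hN
    linarith
  have hN0 : 0 ≤ N := le_trans (by positivity) hN
  have h2 : ν * N ≤ d * ε / 8 * N := mul_le_mul_of_nonneg_right hν hN0
  have h3 : d * (ε * N) ≤ d * τ := mul_le_mul_of_nonneg_left hτ hd.le
  nlinarith

/-- the exponential is small -/
theorem sm (N ε d y : ℝ) (τ : ℕ) (hε : 0 < ε) (hd : 0 < d) (hy : 0 < y)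
    (hN : 4 / (d * ε) * Real.log (1 / y) ≤ N) (hτ : ε * N ≤ τ) :
    Real.exp (-(d * τ / 4)) ≤ y := by
  have h1 : Real.log (1 / y) ≤ d * τ / 4 := by
    have e : 4 / (d * ε) * Real.log (1 / y) = 4 * Real.log (1 / y) / (d * ε) := by
      field_simp
    rw [e, div_le_iff₀ (by positivity)] at hN
    have h3 : d * (ε * N) ≤ d * τ := mul_le_mul_of_nonneg_left hτ hd.le
    nlinarith
  rw [one_div, Real.log_inv] at h1
  calc Real.exp (-(d * τ / 4)) ≤ Real.exp (Real.log y) := Real.exp_le_exp.2 (by linarith)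
    _ = y := Real.exp_log hy

theorem le_card_of_log {V : Type} (A : Finset V) (x : ℝ) (hx : 3 ≤ x)
    (h : x ≤ Real.log A.card) : Real.exp x ≤ (A.card : ℝ) ∧ 8 ≤ A.card := by
  have h0 : (0 : ℝ) < A.card := by
    rcases Nat.eq_zero_or_pos A.card with h1 | h1
    · rw [h1, Nat.cast_zero, Real.log_zero] at h
      linarith
    · exact_mod_cast h1
  have h1 : Real.exp x ≤ (A.card : ℝ) := by
    calc Real.exp x ≤ Real.exp (Real.log A.card) := Real.exp_le_exp.2 h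
      _ = A.card := Real.exp_log h0
  refine ⟨h1, ?_⟩
  have h2 : (16 : ℝ) ≤ A.card := le_trans ex16 (le_trans (Real.exp_le_exp.2 hx) h1)
  have h3 : (8 : ℝ) ≤ A.card := by linarith
  exact_mod_cast h3

theorem five {x y f g p z : ℝ} (hx : 0 ≤ x) (hxy : x ≤ y) (hf : 0 ≤ f) (hfg : f ≤ g)
    (hp : 0 ≤ p) (hz : 0 ≤ z) : 8 * x ^ 3 * f * p * z ≤ 8 * y ^ 3 * g * p * z := by
  have h1 : x ^ 3 ≤ y ^ 3 := pow_le_pow_left₀ hx hxy 3
  have h2 : x ^ 3 * f ≤ y ^ 3 * g := mul_le_mul h1 hfg hf (pow_nonneg (hx.trans hxy) 3)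
  have h3 : 8 * x ^ 3 * f ≤ 8 * y ^ 3 * g := by linarith
  exact mul_le_mul_of_nonneg_right (mul_le_mul_of_nonneg_right h3 hp) hz

theorem core (h1 : Sg1Stmt) (h2 : Sg2Stmt) (h3 : Sg3Stmt) (h4 : Sg4Stmt) (h5 : Sg5Stmt)
    (h6 : Sg6Stmt) (θ cR R q κ δ d η0 ρ lam η ν N : ℝ) (s : ℕ) (τ τ' : ℕ)
    (hθ : 0 < θ) (hc : 0 < cR) (hR : 0 < R) (hs : 2 ≤ s)
    (hq0 : 0 < q) (hq1 : q ≤ 1) (hκ0 : 0 < κ) (hκ8 : κ ≤ 1 / 8) (hκθ : 12 * √κ ≤ θ)
    (hδ0 : 0 < δ) (hδκ : 8 * δ ≤ κ) (hd0 : 0 < d) (hd1 : d ≤ 1)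
    (hd2 : d ≤ q * δ * (1 / (s : ℝ) ^ 2)) (hd3 : d ≤ (q * (1 / (s : ℝ) ^ 2)) ^ 2)
    (hη0 : 0 < η0) (hη01 : η0 ≤ 1) (hρ0 : 0 < ρ) (hρ1 : ρ ≤ 1 / 1000)
    (hρ2 : ρ ≤ 1 / (s : ℝ) ^ 2) (hρ3 : ρ ≤ δ) (hlam : 0 < lam) (hl1 : 8 * lam / η0 ≤ η0 / 8)
    (hη : 0 < η) (hη1 : η ≤ 1) (hν1 : ν ≤ 1) (n0 : 3 ≤ (1 - ν) * N)
    (n1 : Real.exp (ν * N) * Real.exp (-(d * τ / 4)) ≤ 1 / 8)
    (n2 : 8 * Real.exp N ^ 3 * (2 * Real.exp N) * 2 ^ τ * η0 ^ (d * τ / 4) ≤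
      (q * (1 / (s : ℝ) ^ 2)) ^ τ)
    (n3 : 4 * (2 * √ρ + Real.exp (-(d * τ / 4))) ≤ η0 / 2)
    (n4 : 2 * ν * N + 5 + 9 * √ρ * (R * N) + τ * Real.log (1 / (q * (1 / (s : ℝ) ^ 2))) ≤
      θ * (cR * N) / 2)
    (n5 : 2 * Real.exp N * Real.exp (-(θ * (cR * N) / 4)) ≤ Real.exp ((1 - ν) * N) / 4)
    (n6 : 16 * ρ * (R * N) ≤ κ * (cR * N) / 8)
    (n10 : Real.exp (ν * N) * Real.exp (-(η0 * τ' / 4)) ≤ 1 / 8)
    (n11 : 8 * Real.exp N ^ 3 * (2 * Real.exp N) * 2 ^ τ' * η ^ (η0 * τ' / 4) ≤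
      ((1 / (s : ℝ) ^ 2) * η0) ^ τ')
    (n12 : ∀ G : ℝ, κ * (cR * N) / 8 ≤ G →
      2 * ν * N + Real.log (4 / η0) + 2 + τ' * Real.log (1 / ((1 / (s : ℝ) ^ 2) * η0)) +
        6 * √(lam / η0) * G < θ * (η0 / 8 * G))
    (V : Type) [DecidableEq V] (k : ℕ) (c : V → V → Fin k) (U A B : Finset V)
    (C1 : Finset (Fin k)) (e : Fin k) (L : ℝ) (hsym : ∀ x y, c x y = c y x)
    (hRec : Rec2 c U θ) (hN : Real.log U.card = N)
    (hP : ((pal c U).card : ℝ) ≤ R * N) (hS : cR * N ≤ smax c U) (hL : 1 ≤ L)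
    (hLs : 32 * L + 1 ≤ s) (hflat : Flat c U s (L * s)) (hA : A ⊆ U) (hB : B ⊆ U)
    (hlA : (1 - ν) * N ≤ Real.log A.card) (hlB : (1 - ν) * N ≤ Real.log B.card)
    (hk : Real.log k ≤ ν * N) (hRob : Rob c e A B ρ q) (hReg : Reg c C1 A B lam ρ) :
    ∃ (A' B' : Finset V) (x x' y y' : V) (a b g : Fin k),
      Rn8 c C1 e A B A' B' x x' y y' a b g ∧ η * A.card ≤ (A'.card : ℝ) ∧
      η * B.card ≤ (B'.card : ℝ) := by
  have hsR : (2 : ℝ) ≤ s := by exact_mod_cast hs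
  have ht0 : (0 : ℝ) < 1 / (s : ℝ) ^ 2 := by positivity
  have ht1 : (1 : ℝ) / (s : ℝ) ^ 2 ≤ 1 := by
    rw [div_le_one (by positivity)]
    nlinarith
  have hN0 : 0 < N := by
    have h : 0 ≤ N := by
      rw [← hN]
      exact Real.log_natCast_nonneg _
    rcases h.lt_or_eq with h | h
    · exact h
    · rw [← h] at n0
      norm_num at n0
  have hUne : U.Nonempty := hRec.1
  have hUc : (U.card : ℝ) = Real.exp N := by
    rw [← hN, Real.exp_log]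
    exact_mod_cast hUne.card_pos
  obtain ⟨hAe, hA8⟩ := le_card_of_log A _ n0 hlA
  obtain ⟨hBe, hB8⟩ := le_card_of_log B _ n0 hlB
  have Ane : A.Nonempty := Finset.card_pos.1 (by omega)
  have Bne : B.Nonempty := Finset.card_pos.1 (by omega)
  have hkN : (k : ℝ) ≤ Real.exp (ν * N) :=
    le_trans (Real.le_exp_log _) (Real.exp_le_exp.2 hk)
  have hνN : Real.exp (ν * N) ≤ Real.exp N := by
    apply Real.exp_le_exp.2
    nlinarith
  have card_k : ∀ F : Finset (Fin k), (F.card : ℝ) ≤ Real.exp (ν * N) := by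
    intro F
    refine le_trans ?_ hkN
    have := Finset.card_le_univ F
    rw [Fintype.card_fin] at this
    exact_mod_cast this
  have card_U : ∀ F : Finset V, F ⊆ U → (F.card : ℝ) ≤ Real.exp N := by
    intro F hF
    rw [← hUc]
    exact_mod_cast Finset.card_le_card hF
  obtain ⟨B0, hB0, b, X0, hX0, a, Z0, hZ0, X0ne, hBB0, hlX0, hb, ha, hal, hC1, hZc, hBi, hexc⟩ :=
    h1 V k c U A B C1 e s L δ q ρ lam hsym hL hLs hflat hA hB hA8 hB8 hq0 hδ0 hρ0 hρ1 hρ2 hρ3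
      hlam.le hRob hReg
  obtain ⟨FI, hFIdef⟩ : ∃ FI : Finset (Fin k), FI = (pal c U \ Z0).filter fun i =>
      δ * B.card ≤ ((B0.filter fun y => i ∈ star c U y).card : ℝ) := ⟨_, rfl⟩
  have hFI : ∀ i ∈ FI, ∀ x ∈ X0, q * (δ * B.card) ≤
      ((al c e B x ∩ B0.filter fun y => i ∈ star c U y).card : ℝ) := by
    intro i hi x hx
    rw [hFIdef, Finset.mem_filter] at hi
    exact hBi i hi.1 hi.2 x hx
  have m1 : (FI.card : ℝ) * Real.exp (-(d * τ / 4)) ≤ 1 / 8 :=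
    le_trans (mul_le_mul_of_nonneg_right (card_k FI) (Real.exp_pos _).le) n1
  have m2 : 8 * (X0.card : ℝ) ^ 3 * (FI.card + B0.card) * 2 ^ τ * η0 ^ (d * τ / 4) ≤
      (q * (1 / (s : ℝ) ^ 2)) ^ τ := by
    refine le_trans ?_ n2
    have e1 : (X0.card : ℝ) ≤ Real.exp N := card_U X0 (hX0.trans hA)
    have e2 : (FI.card : ℝ) + B0.card ≤ 2 * Real.exp N := by
      have := card_k FI
      have := card_U B0 (hB0.trans hB)
      linarith
    have e3 : (0 : ℝ) ≤ η0 ^ (d * τ / 4) := Real.rpow_nonneg hη0.le _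
    exact five (Nat.cast_nonneg _) e1 (add_nonneg (Nat.cast_nonneg _) (Nat.cast_nonneg _)) e2
      (pow_nonneg zero_le_two _) e3
  obtain ⟨X, hX, B1, hB1, Xne, hlX, hBB1, hXF, hXG⟩ := h2 V k c A B B0 X0 e a b
    (fun i => B0.filter fun y => i ∈ star c U y) FI (1 / (s : ℝ) ^ 2) q δ (2 * √ρ) d η0 τ
    Ane Bne X0ne hB0 ht0 ht1 hq0 hq1 hδ0 (by positivity) hd0 hd1 hη0 hη01 hd2 hd3 ha hal hFI
    hexc m1 m2
  have hXU : X ⊆ U := (hX.trans hX0).trans hA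
  have hθS : θ * (cR * N) ≤ θ * smax c U := mul_le_mul_of_nonneg_left hS hθ.le
  have hκS : κ * (cR * N) ≤ κ * smax c U := mul_le_mul_of_nonneg_left hS hκ0.le
  have hρP : 9 * √ρ * ((pal c U).card : ℝ) ≤ 9 * √ρ * (R * N) :=
    mul_le_mul_of_nonneg_left hP (by positivity)
  have m4 : Real.log U.card - Real.log X.card ≤ θ * smax c U / 2 := by
    rw [hN]
    linarith
  have m5 : 2 * U.card * Real.exp (-(θ * smax c U / 4)) ≤ (B0.card : ℝ) := by
    rw [hUc]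
    have e1 : Real.exp (-(θ * smax c U / 4)) ≤ Real.exp (-(θ * (cR * N) / 4)) :=
      Real.exp_le_exp.2 (by linarith)
    have e2 : 2 * Real.exp N * Real.exp (-(θ * smax c U / 4)) ≤
        2 * Real.exp N * Real.exp (-(θ * (cR * N) / 4)) :=
      mul_le_mul_of_nonneg_left e1 (by positivity)
    linarith
  have m6 : (Z0.card : ℝ) ≤ κ * smax c U / 8 := by
    have e1 : 16 * ρ * ((pal c U).card : ℝ) ≤ 16 * ρ * (R * N) :=
      mul_le_mul_of_nonneg_left hP (by positivity)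
    linarith
  obtain ⟨x0, hx0, Γ, hΓ, x', hdis, hΓc, hΓp⟩ := h3 V k c U X B B0 Z0 θ κ δ hRec hθ hκ0 hκ8 hκθ
    hδκ hXU Xne (hB0.trans hB) hBB0 m4 m5 m6
  have hΓG : κ * (cR * N) / 8 ≤ (Γ.card : ℝ) := by linarith
  have Γne : Γ.Nonempty := by
    apply Finset.card_pos.1
    have : (0 : ℝ) < Γ.card := lt_of_lt_of_le (by positivity) hΓG
    exact_mod_cast this
  have hΓFI : ∀ i ∈ Γ, i ∈ FI := by
    intro i hi
    rw [hFIdef, Finset.mem_filter, Finset.mem_sdiff]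
    exact ⟨⟨hΓ hi, Finset.disjoint_left.1 hdis hi⟩, (hΓp i hi).2.2.2⟩
  have mB : ((B0 \ B1).card : ℝ) ≤ η0 / 2 * B0.card :=
    le_trans hBB1 (mul_le_mul_of_nonneg_right n3 (Nat.cast_nonneg _))
  obtain ⟨W, hW, Z, hZ, Wne, hZc', hlW, hWe, hWC, hWf⟩ := h4 V k c B B0 B1
    (fun i => B0.filter fun y => i ∈ star c U y) x0 x' e C1 Γ η0 lam Bne hB0 hB1
    (fun i => Finset.filter_subset _ _) hη0 hη01 hlam Γne mB
    (fun i hi => hXF x0 hx0 (x' i) (hΓp i hi).1 i (hΓFI i hi))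
    (fun i hi => hC1 (x' i) (hX (hΓp i hi).1))
  have hWU : W ⊆ U := ((hW.trans hB1).trans hB0).trans hB
  have m10 : (Γ.card : ℝ) * Real.exp (-(η0 * τ' / 4)) ≤ 1 / 8 :=
    le_trans (mul_le_mul_of_nonneg_right (card_k Γ) (Real.exp_pos _).le) n10
  have m11 : 8 * (W.card : ℝ) ^ 3 * Γ.card * 2 ^ τ' * η ^ (η0 * τ' / 4) ≤
      ((1 / (s : ℝ) ^ 2) * η0) ^ τ' := by
    refine le_trans ?_ n11
    have e1 : (W.card : ℝ) ≤ Real.exp N := card_U W hWU
    have e2 : (Γ.card : ℝ) ≤ 2 * Real.exp N := by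
      have := card_k Γ
      have := Real.exp_pos N
      linarith
    have e3 : (0 : ℝ) ≤ η ^ (η0 * τ' / 4) := Real.rpow_nonneg hη.le _
    exact five (Nat.cast_nonneg _) e1 (Nat.cast_nonneg _) e2 (pow_nonneg zero_le_two _) e3
  obtain ⟨b', Y, hY, Yne, hlY, hYf⟩ := h5 V k c A B W x0 x' e a b Γ (1 / (s : ℝ) ^ 2) η0 η τ'
    Ane Bne Wne Γne ht0 ht1 hη0 hη01 hη hη1 (fun y hy => hb y (hB1 (hW hy)))
    (fun y hy i hi => hXG x0 hx0 (x' i) (hΓp i hi).1 y (hW hy)) m10 m11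
  have hYU : Y ⊆ U := hY.trans hWU
  have m12 : Real.log U.card - Real.log Y.card < θ * (η0 / 8 * Γ.card) := by
    have := n12 Γ.card hΓG
    rw [hN]
    linarith
  have mZ : (Z.card : ℝ) ≤ η0 / 8 * Γ.card :=
    le_trans hZc' (mul_le_mul_of_nonneg_right hl1 (Nat.cast_nonneg _))
  obtain ⟨i, hi, y, hy, y', hy', nyy, hcyy, hce⟩ := h6 V k c U Y Γ Z x' e θ η0 hRec hθ hYU Yne
    m12 mZ (by
      intro y hy
      refine le_trans (hWf y (hY hy)) ?_
      have : (Γ.filter fun i => y ∈ (fun i => B0.filter fun y => i ∈ star c U y) i ∧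
          c (x' i) y = e).card ≤
          (Γ.filter fun i => i ∈ star c U y ∧ c (x' i) y = e).card := by
        apply Finset.card_le_card
        intro i hi
        simp only [Finset.mem_filter] at hi ⊢
        exact ⟨hi.1, hi.2.1.2, hi.2.2⟩
      exact_mod_cast this)
  have hiΓ : i ∈ Γ := (Finset.mem_sdiff.1 hi).1
  have hx'X : x' i ∈ X := (hΓp i hiΓ).1
  have hnx : x' i ≠ x0 := (hΓp i hiΓ).2.1
  have hcx : c x0 (x' i) = i := (hΓp i hiΓ).2.2.1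
  have key := hYf y hy y' hy' i hiΓ
  obtain ⟨A', hA'⟩ : ∃ A' : Finset V, A' =
      al c e A y ∩ al c e A y' ∩ (nb c A a x0 ∩ nb c A a (x' i)) := ⟨_, rfl⟩
  obtain ⟨B', hB'⟩ : ∃ B' : Finset V, B' =
      nb c B b' y ∩ nb c B b' y' ∩ (al c e B x0 ∩ al c e B (x' i)) := ⟨_, rfl⟩
  rw [← hA', ← hB'] at key
  have hsA : A' ⊆ A := by
    intro z hz
    rw [hA'] at hz
    exact (Finset.mem_filter.1 (Finset.mem_inter.1 (Finset.mem_inter.1 hz).1).1).1
  have hsB : B' ⊆ B := by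
    intro z hz
    rw [hB'] at hz
    exact (Finset.mem_filter.1 (Finset.mem_inter.1 (Finset.mem_inter.1 hz).1).1).1
  have cA' : (A'.card : ℝ) ≤ A.card := by exact_mod_cast Finset.card_le_card hsA
  have cB' : (B'.card : ℝ) ≤ B.card := by exact_mod_cast Finset.card_le_card hsB
  have pA : (0 : ℝ) < A.card := by exact_mod_cast Ane.card_pos
  have pB : (0 : ℝ) < B.card := by exact_mod_cast Bne.card_pos
  refine ⟨A', B', x0, x' i, y, y', a, b', c (x' i) y',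
    ⟨hX0 (hX hx0), hX0 (hX hx'X), hB0 (hB1 (hW (hY hy))), hB0 (hB1 (hW (hY hy'))), hnx.symm, nyy,
      by rw [hcx, hcyy], hWe y (hY hy), hWe y' (hY hy'), hce, rfl, hWC y' (hY hy') i hi, hsA, hsB,
      ?_, ?_⟩, ?_, ?_⟩
  · intro z hz
    rw [hA'] at hz
    simp only [Finset.mem_inter, al, nb, Finset.mem_filter] at hz
    exact ⟨hz.2.1.2.1, hz.2.2.2.1, hz.2.1.2.2, hz.2.2.2.2, hz.1.1.2, hz.1.2.2⟩
  · intro z hz
    rw [hB'] at hz
    simp only [Finset.mem_inter, al, nb, Finset.mem_filter] at hz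
    exact ⟨hz.1.1.2.1, hz.1.2.2.1, hz.1.1.2.2, hz.1.2.2.2, hz.2.1.2, hz.2.2.2⟩
  · have e1 : (B'.card : ℝ) * A'.card ≤ B.card * A'.card :=
      mul_le_mul_of_nonneg_right cB' (Nat.cast_nonneg _)
    have e2 : B.card * (η * A.card) ≤ B.card * (A'.card : ℝ) := by
      calc (B.card : ℝ) * (η * A.card) = η * (B.card * A.card) := by ring
        _ ≤ B'.card * A'.card := key
        _ ≤ B.card * A'.card := e1
    exact le_of_mul_le_mul_left e2 pB
  · have e1 : (B'.card : ℝ) * A'.card ≤ B'.card * A.card :=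
      mul_le_mul_of_nonneg_left cA' (Nat.cast_nonneg _)
    have e2 : A.card * (η * B.card) ≤ A.card * (B'.card : ℝ) := by
      calc (A.card : ℝ) * (η * B.card) = η * (B.card * A.card) := by ring
        _ ≤ B'.card * A'.card := key
        _ ≤ B'.card * A.card := e1
        _ = A.card * B'.card := by ring
    exact le_of_mul_le_mul_left e2 pA

/-- RN8: one round with constants -/
theorem rn8 (h1 : Sg1Stmt) (h2 : Sg2Stmt) (h3 : Sg3Stmt) (h4 : Sg4Stmt) (h5 : Sg5Stmt)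
    (h6 : Sg6Stmt) : Rn8Stmt := by
  intro θ cR R s j hθ hθ1 hc hc1 hR hs hj
  have hsR : (2 : ℝ) ≤ s := by exact_mod_cast hs
  have hjR : (1 : ℝ) ≤ j := by exact_mod_cast hj
  obtain ⟨t, ht⟩ : ∃ t : ℝ, t = 1 / (s : ℝ) ^ 2 := ⟨_, rfl⟩
  obtain ⟨q, hq⟩ : ∃ q : ℝ, q = 1 / (4 * (j : ℝ)) := ⟨_, rfl⟩
  have ht0 : 0 < t := by rw [ht]; positivity
  have ht1 : t ≤ 1 := by
    rw [ht, div_le_one (by positivity)]
    nlinarith
  have hq0 : 0 < q := by rw [hq]; positivity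
  have hq1 : q ≤ 1 := by
    rw [hq, div_le_one (by positivity)]
    linarith
  have hqt : q * t ≤ 1 := mul_le_one₀ hq1 ht0.le ht1
  have hqt0 : 0 < q * t := mul_pos hq0 ht0
  obtain ⟨κ, hκ⟩ : ∃ κ : ℝ, κ = (θ / 12) ^ 2 := ⟨_, rfl⟩
  have hκ0 : 0 < κ := by rw [hκ]; positivity
  have hκ8 : κ ≤ 1 / 8 := by
    rw [hκ]
    nlinarith only [hθ, hθ1]
  have hκs : √κ = θ / 12 := by rw [hκ, Real.sqrt_sq (by positivity)]
  have hκθ : 12 * √κ ≤ θ := by
    rw [hκs]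
    linarith only [hθ]
  obtain ⟨δ, hδ⟩ : ∃ δ : ℝ, δ = κ / 8 := ⟨_, rfl⟩
  have hδ0 : 0 < δ := by rw [hδ]; positivity
  have hδκ : 8 * δ ≤ κ := by
    rw [hδ]
    linarith only [hκ0]
  obtain ⟨d, hd⟩ : ∃ d : ℝ, d = min (q * δ * t) ((q * t) ^ 2) := ⟨_, rfl⟩
  have hd0 : 0 < d := by rw [hd]; exact lt_min (by positivity) (by positivity)
  have hd2 : d ≤ q * δ * t := by rw [hd]; exact min_le_left _ _
  have hd3 : d ≤ (q * t) ^ 2 := by rw [hd]; exact min_le_right _ _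
  have hd1 : d ≤ 1 := le_trans hd3 (pow_le_one₀ hqt0.le hqt)
  obtain ⟨l, hl⟩ : ∃ l : ℝ, l = Real.log (1 / (q * t)) := ⟨_, rfl⟩
  have hl0 : 0 ≤ l := by
    rw [hl]
    apply Real.log_nonneg
    rw [le_div_iff₀ hqt0]
    linarith only [hqt]
  obtain ⟨ε, hε⟩ : ∃ ε : ℝ, ε = θ * cR / (16 * (l + 1)) := ⟨_, rfl⟩
  have hε0 : 0 < ε := by rw [hε]; positivity
  have hεl : ε * l ≤ θ * cR / 16 := by
    have e : ε * (l + 1) = θ * cR / 16 := by
      rw [hε]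
      field_simp
    linarith only [e, hε0]
  obtain ⟨η0, hη0d⟩ : ∃ η0 : ℝ, η0 = Real.exp (-(4 / d * (6 / ε + 1 + Real.log (1 / (q * t))))) :=
    ⟨_, rfl⟩
  have hη0 : 0 < η0 := by rw [hη0d]; exact Real.exp_pos _
  have hη01 : η0 ≤ 1 := by
    rw [hη0d]
    apply Real.exp_le_one_iff.2
    rw [← hl]
    have h : 0 ≤ 4 / d * (6 / ε + 1 + l) := by positivity
    linarith only [h]
  obtain ⟨ρ, hρ⟩ : ∃ ρ : ℝ, ρ = min (min (min t δ) (1 / 1000))
      (min (min ((η0 / 100) ^ 2) ((θ * cR / (200 * R)) ^ 2)) (κ * cR / (200 * R))) := ⟨_, rfl⟩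
  have hρ0 : 0 < ρ := by
    rw [hρ]
    exact lt_min (lt_min (lt_min ht0 hδ0) (by norm_num))
      (lt_min (lt_min (by positivity) (by positivity)) (by positivity))
  have hρ1 : ρ ≤ 1 / 1000 := by
    rw [hρ]
    exact (min_le_left _ _).trans (min_le_right _ _)
  have hρt : ρ ≤ t := by
    rw [hρ]
    exact (min_le_left _ _).trans ((min_le_left _ _).trans (min_le_left _ _))
  have hρδ : ρ ≤ δ := by
    rw [hρ]
    exact (min_le_left _ _).trans ((min_le_left _ _).trans (min_le_right _ _))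
  have hρη : √ρ ≤ η0 / 100 := by
    apply Real.sqrt_le_iff.2
    refine ⟨by positivity, ?_⟩
    rw [hρ]
    exact (min_le_right _ _).trans ((min_le_left _ _).trans (min_le_left _ _))
  have hρR : √ρ ≤ θ * cR / (200 * R) := by
    apply Real.sqrt_le_iff.2
    refine ⟨by positivity, ?_⟩
    rw [hρ]
    exact (min_le_right _ _).trans ((min_le_left _ _).trans (min_le_right _ _))
  have hρκ : ρ ≤ κ * cR / (200 * R) := by
    rw [hρ]
    exact (min_le_right _ _).trans (min_le_right _ _)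
  have hρR' : √ρ * R ≤ θ * cR / 200 := by
    calc √ρ * R ≤ θ * cR / (200 * R) * R := mul_le_mul_of_nonneg_right hρR (by positivity)
      _ = θ * cR / 200 := by field_simp
  have hρκ' : ρ * R ≤ κ * cR / 200 := by
    calc ρ * R ≤ κ * cR / (200 * R) * R := mul_le_mul_of_nonneg_right hρκ (by positivity)
      _ = κ * cR / 200 := by field_simp
  obtain ⟨lam, hlamd⟩ : ∃ lam : ℝ, lam = η0 * (θ * η0 / 1000) ^ 2 := ⟨_, rfl⟩
  have hlam : 0 < lam := by rw [hlamd]; positivity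
  have hle : lam / η0 = (θ * η0 / 1000) ^ 2 := by
    rw [hlamd]
    field_simp
  have hθη : θ * η0 ≤ 1 := mul_le_one₀ hθ1 hη0.le hη01
  have hθη0 : 0 < θ * η0 := mul_pos hθ hη0
  have hlam1 : lam ≤ 1 := by
    rw [hlamd]
    have h : (θ * η0 / 1000) ^ 2 ≤ 1 :=
      pow_le_one₀ (div_pos hθη0 (by norm_num)).le (by linarith only [hθη])
    exact mul_le_one₀ hη01 (sq_nonneg _) h
  have hl1 : 8 * lam / η0 ≤ η0 / 8 := by
    have e : 8 * lam / η0 = 8 * (lam / η0) := by ring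
    rw [e, hle]
    have e2 : θ * η0 ≤ η0 := mul_le_of_le_one_left hη0.le hθ1
    have e3 : (θ * η0 / 1000) ^ 2 ≤ θ * η0 / 1000 := by
      nlinarith only [hθη0, hθη]
    linarith only [e2, e3, hη0]
  have hsl : √(lam / η0) = θ * η0 / 1000 := by
    rw [hle, Real.sqrt_sq (by positivity)]
  obtain ⟨c1, hc1d⟩ : ∃ c1 : ℝ, c1 = κ * cR / 8 := ⟨_, rfl⟩
  have hc10 : 0 < c1 := by rw [hc1d]; positivity
  have htη : t * η0 ≤ 1 := mul_le_one₀ ht1 hη0.le hη01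
  have htη0 : 0 < t * η0 := mul_pos ht0 hη0
  obtain ⟨l', hl'⟩ : ∃ l' : ℝ, l' = Real.log (1 / (t * η0)) := ⟨_, rfl⟩
  have hl'0 : 0 ≤ l' := by
    rw [hl']
    apply Real.log_nonneg
    rw [le_div_iff₀ htη0]
    linarith only [htη]
  obtain ⟨ε', hε'⟩ : ∃ ε' : ℝ, ε' = θ * η0 * c1 / (200 * (l' + 1)) := ⟨_, rfl⟩
  have hε'0 : 0 < ε' := by rw [hε']; positivity
  have hε'l : ε' * l' ≤ θ * η0 * c1 / 200 := by
    have e : ε' * (l' + 1) = θ * η0 * c1 / 200 := by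
      rw [hε']
      field_simp
    linarith only [e, hε'0]
  obtain ⟨η, hηd⟩ : ∃ η : ℝ, η = Real.exp (-(4 / η0 * (6 / ε' + 1 + Real.log (1 / (t * η0))))) :=
    ⟨_, rfl⟩
  have hη : 0 < η := by rw [hηd]; exact Real.exp_pos _
  have hη1 : η ≤ 1 := by
    rw [hηd]
    apply Real.exp_le_one_iff.2
    rw [← hl']
    have h : 0 ≤ 4 / η0 * (6 / ε' + 1 + l') := by positivity
    linarith only [h]
  obtain ⟨ν, hνd⟩ : ∃ ν : ℝ, ν = min (1 / 2) (min (min (d * ε / 8) (θ * cR / 32))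
      (min (η0 * ε' / 8) (θ * η0 * c1 / 200))) := ⟨_, rfl⟩
  have hν0 : 0 < ν := by
    rw [hνd]
    exact lt_min (by norm_num) (lt_min (lt_min (by positivity) (by positivity))
      (lt_min (by positivity) (by positivity)))
  have hν2 : ν ≤ 1 / 2 := by rw [hνd]; exact min_le_left _ _
  have hν3 : ν ≤ d * ε / 8 := by
    rw [hνd]
    exact (min_le_right _ _).trans ((min_le_left _ _).trans (min_le_left _ _))
  have hν4 : ν ≤ θ * cR / 32 := by
    rw [hνd]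
    exact (min_le_right _ _).trans ((min_le_left _ _).trans (min_le_right _ _))
  have hν5 : ν ≤ η0 * ε' / 8 := by
    rw [hνd]
    exact (min_le_right _ _).trans ((min_le_right _ _).trans (min_le_left _ _))
  have hν6 : ν ≤ θ * η0 * c1 / 200 := by
    rw [hνd]
    exact (min_le_right _ _).trans ((min_le_right _ _).trans (min_le_right _ _))
  have g1 : (0 : ℝ) ≤ 24 / (d * ε) := by positivity
  have g2 : (0 : ℝ) ≤ 4 / (d * ε) * Real.log (1 / (η0 / 10)) := by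
    have : 0 ≤ Real.log (1 / (η0 / 10)) := by
      apply Real.log_nonneg
      rw [le_div_iff₀ (by positivity)]
      linarith only [hη01]
    positivity
  have g3 : (0 : ℝ) ≤ 16 * (5 + l) / (θ * cR) := by positivity
  have g4 : (0 : ℝ) ≤ 16 / (θ * cR) := by positivity
  have g5 : (0 : ℝ) ≤ 24 / (η0 * ε') := by positivity
  have hl4 : 0 ≤ Real.log (4 / η0) := by
    apply Real.log_nonneg
    rw [le_div_iff₀ hη0]
    linarith only [hη01]
  have g6 : (0 : ℝ) ≤ 100 * (Real.log (4 / η0) + 2 + l') / (θ * η0 * c1) := by positivity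
  obtain ⟨N0, hN0⟩ : ∃ N0 : ℝ, N0 = 6 + 24 / (d * ε) + 4 / (d * ε) * Real.log (1 / (η0 / 10)) +
      16 * (5 + l) / (θ * cR) + 16 / (θ * cR) + 24 / (η0 * ε') +
      100 * (Real.log (4 / η0) + 2 + l') / (θ * η0 * c1) := ⟨_, rfl⟩
  have b1 : 6 ≤ N0 := by linarith only [hN0, g1, g2, g3, g4, g5, g6]
  have b2 : 24 / (d * ε) ≤ N0 := by linarith only [hN0, g1, g2, g3, g4, g5, g6]
  have b3 : 4 / (d * ε) * Real.log (1 / (η0 / 10)) ≤ N0 := by
    linarith only [hN0, g1, g2, g3, g4, g5, g6]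
  have b4 : 16 * (5 + l) / (θ * cR) ≤ N0 := by linarith only [hN0, g1, g2, g3, g4, g5, g6]
  have b5 : 16 / (θ * cR) ≤ N0 := by linarith only [hN0, g1, g2, g3, g4, g5, g6]
  have b6 : 24 / (η0 * ε') ≤ N0 := by linarith only [hN0, g1, g2, g3, g4, g5, g6]
  have b7 : 100 * (Real.log (4 / η0) + 2 + l') / (θ * η0 * c1) ≤ N0 := by
    linarith only [hN0, g1, g2, g3, g4, g5, g6]
  refine ⟨ρ, lam, η, ν, N0, hρ0, by linarith only [hρ1], hlam, hlam1, hη, hη1, hν0,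
    by linarith only [hν2], by linarith only [b1], ?_⟩
  intro V _ k c U A B C1 e L hsym hRec hP hS hL hLs hflat hA hB hdis hlA hlB hk hN hRob hReg
  obtain ⟨N, hNd⟩ : ∃ N : ℝ, Real.log U.card = N := ⟨_, rfl⟩
  rw [hNd] at hP hS hlA hlB hk hN
  have hN6 : 6 ≤ N := le_trans b1 hN
  have hNN : (0 : ℝ) ≤ N := le_trans (by norm_num) hN6
  have hτ1 : ε * N ≤ ((⌊ε * N⌋₊ + 1 : ℕ) : ℝ) := by
    push_cast
    exact (Nat.lt_floor_add_one _).le
  have hτ2 : ((⌊ε * N⌋₊ + 1 : ℕ) : ℝ) ≤ ε * N + 1 := by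
    push_cast
    exact add_le_add_left (Nat.floor_le (mul_nonneg hε0.le hNN)) 1
  have hτ1' : ε' * N ≤ ((⌊ε' * N⌋₊ + 1 : ℕ) : ℝ) := by
    push_cast
    exact (Nat.lt_floor_add_one _).le
  have hτ2' : ((⌊ε' * N⌋₊ + 1 : ℕ) : ℝ) ≤ ε' * N + 1 := by
    push_cast
    exact add_le_add_left (Nat.floor_le (mul_nonneg hε'0.le hNN)) 1
  obtain ⟨τ, hτ⟩ : ∃ τ : ℕ, ⌊ε * N⌋₊ + 1 = τ := ⟨_, rfl⟩
  obtain ⟨τ', hτ'⟩ : ∃ τ' : ℕ, ⌊ε' * N⌋₊ + 1 = τ' := ⟨_, rfl⟩
  rw [hτ] at hτ1 hτ2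
  rw [hτ'] at hτ1' hτ2'
  have k3 : 5 + l ≤ θ * cR * N / 16 := by
    have h := le_trans b4 hN
    rw [div_le_iff₀ (mul_pos hθ hc)] at h
    linarith only [h]
  have k4 : 16 ≤ θ * cR * N := by
    have h := le_trans b5 hN
    rw [div_le_iff₀ (mul_pos hθ hc)] at h
    linarith only [h]
  have k6 : Real.log (4 / η0) + 2 + l' ≤ θ * η0 * c1 * N / 100 := by
    have h := le_trans b7 hN
    rw [div_le_iff₀ (mul_pos hθη0 hc10)] at h
    linarith only [h]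
  have kν : ν * N ≤ θ * cR * N / 32 := by
    calc ν * N ≤ θ * cR / 32 * N := mul_le_mul_of_nonneg_right hν4 hNN
      _ = θ * cR * N / 32 := by ring
  have kν6 : ν * N ≤ θ * η0 * c1 * N / 200 := by
    calc ν * N ≤ θ * η0 * c1 / 200 * N := mul_le_mul_of_nonneg_right hν6 hNN
      _ = θ * η0 * c1 * N / 200 := by ring
  have kρ : 9 * √ρ * (R * N) ≤ 9 * (θ * cR * N) / 200 := by
    calc 9 * √ρ * (R * N) = 9 * N * (√ρ * R) := by ring
      _ ≤ 9 * N * (θ * cR / 200) := mul_le_mul_of_nonneg_left hρR' (by linarith only [hNN])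
      _ = 9 * (θ * cR * N) / 200 := by ring
  have kτ : τ * l ≤ θ * cR * N / 16 + l := by
    calc τ * l ≤ (ε * N + 1) * l := mul_le_mul_of_nonneg_right hτ2 hl0
      _ = ε * l * N + l := by ring
      _ ≤ θ * cR / 16 * N + l := by
        have h := mul_le_mul_of_nonneg_right hεl hNN
        linarith only [h]
      _ = θ * cR * N / 16 + l := by ring
  have kτ' : τ' * l' ≤ θ * η0 * c1 * N / 200 + l' := by
    calc τ' * l' ≤ (ε' * N + 1) * l' := mul_le_mul_of_nonneg_right hτ2' hl'0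
      _ = ε' * l' * N + l' := by ring
      _ ≤ θ * η0 * c1 / 200 * N + l' := by
        have h := mul_le_mul_of_nonneg_right hε'l hNN
        linarith only [h]
      _ = θ * η0 * c1 * N / 200 + l' := by ring
  refine core h1 h2 h3 h4 h5 h6 θ cR R q κ δ d η0 ρ lam η ν N s τ τ' hθ hc
    (by linarith only [hR]) hs
    hq0 hq1 hκ0 hκ8 hκθ hδ0 hδκ hd0 hd1 (by rw [← ht]; exact hd2) (by rw [← ht]; exact hd3)
    hη0 hη01 hρ0 hρ1 (by rw [← ht]; exact hρt) hρδ hlam hl1 hη hη1 (by linarith only [hν2])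
    ?_ ?_ ?_ ?_ ?_
    ?_ ?_ ?_ ?_ ?_ V k c U A B C1 e L hsym hRec hNd hP hS hL hLs hflat hA hB hlA hlB hk
    (by rw [hq]; exact hRob) hReg
  · have h : (1 / 2 : ℝ) * N ≤ (1 - ν) * N :=
      mul_le_mul_of_nonneg_right (by linarith only [hν2]) hNN
    linarith only [h, hN6]
  · exact fs N ε d ν τ hε0 hd0 (le_trans b2 hN) hν3 hτ1
  · rw [← ht, hη0d]
    exact pw N ε d (q * t) _ τ (by linarith only [hN6]) hε0 hd0 hqt0 hτ1 le_rfl
  · have e1 := sm N ε d (η0 / 10) τ hε0 hd0 (div_pos hη0 (by norm_num)) (le_trans b3 hN) hτ1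
    linarith only [e1, hρη, hη0]
  · rw [← ht, ← hl]
    have e1 : θ * (cR * N) / 2 = θ * cR * N / 2 := by ring
    rw [e1]
    linarith only [kν, kρ, kτ, k3, k4]
  · have h3' : (8 : ℝ) ≤ Real.exp 3 := le_trans (by norm_num) ex16
    have e1 : 2 * Real.exp N * Real.exp (-(θ * (cR * N) / 4)) * 4 =
        8 * Real.exp (N + -(θ * (cR * N) / 4)) := by
      rw [Real.exp_add]
      ring
    have e2 : 8 * Real.exp (N + -(θ * (cR * N) / 4)) ≤
        Real.exp (3 + (N + -(θ * (cR * N) / 4))) := by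
      rw [Real.exp_add 3]
      exact mul_le_mul_of_nonneg_right h3' (Real.exp_pos _).le
    have e3 : Real.exp (3 + (N + -(θ * (cR * N) / 4))) ≤ Real.exp ((1 - ν) * N) := by
      apply Real.exp_le_exp.2
      have e4 : θ * (cR * N) / 4 = θ * cR * N / 4 := by ring
      rw [e4]
      linarith only [kν, k4]
    linarith only [e1, e2, e3]
  · calc 16 * ρ * (R * N) = 16 * N * (ρ * R) := by ring
      _ ≤ 16 * N * (κ * cR / 200) := mul_le_mul_of_nonneg_left hρκ' (by linarith only [hNN])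
      _ ≤ κ * (cR * N) / 8 := by
        have h : 0 ≤ κ * cR * N := mul_nonneg (mul_pos hκ0 hc).le hNN
        linarith only [h]
  · exact fs N ε' η0 ν τ' hε'0 hη0 (le_trans b6 hN) hν5 hτ1'
  · rw [← ht, hηd]
    exact pw N ε' η0 (t * η0) _ τ' (by linarith only [hN6]) hε'0 hη0 htη0 hτ1' le_rfl
  · intro G hG
    rw [← ht, ← hl', hsl]
    have e1 : κ * (cR * N) / 8 = c1 * N := by
      rw [hc1d]
      ring
    rw [e1] at hG
    have e2 : θ * η0 * (c1 * N) ≤ θ * η0 * G := mul_le_mul_of_nonneg_left hG hθη0.le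
    have e3 : 0 < θ * η0 * (c1 * N) :=
      mul_pos hθη0 (mul_pos hc10 (by linarith only [hN6]))
    have e4 : θ * η0 * c1 * N = θ * η0 * (c1 * N) := by ring
    rw [e4] at k6 kν6 kτ'
    have e5 : θ * (η0 / 8 * G) = θ * η0 * G / 8 := by ring
    have e6 : 6 * (θ * η0 / 1000) * G = 6 / 1000 * (θ * η0 * G) := by ring
    rw [e5, e6]
    linarith only [e2, e3, k6, kν6, kτ']

end Pool.Agent.EGF.H75
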